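import Pool.Agent.H676.SC.Stm

set_option autoImplicit false

namespace Pool.Agent.H344.SCSing

open Finset Pool.Agent.H676.SC

variable {V : Type} [DecidableEq V]

/-- no element of the subgroup other than one is supported in the set -/
def Free (H : Subgroup (Equiv.Perm V)) (S : Finset V) : Prop :=
  ∀ x ∈ H, (∀ v, v ∉ S → x v = v) → x = 1

theorem mem_of_move {S : Finset V} {g : Equiv.Perm V} (hg : ∀ v, v ∉ S → g v = v) {v : V}
    (hv : v ∈ S) : g v ∈ S := by
  by_contra h
  have h1 := g.injective (hg _ h)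
  rw [h1] at h
  exact h hv

omit [DecidableEq V] in
theorem inv_fix {S : Finset V} {g : Equiv.Perm V} (hg : ∀ v, v ∉ S → g v = v) (v : V)
    (hv : v ∉ S) : g⁻¹ v = v := by
  have h : g⁻¹ (g v) = v := g.symm_apply_apply v
  rw [hg v hv] at h
  exact h

theorem comm_eq {S S' : Finset V} {α : V} (hS : α ∉ S) (hS' : α ∉ S') (hd : Disjoint S' S)
    {g h : Equiv.Perm V} (hg : ∀ v, v ∉ insert α S → g v = v)
    (hh : ∀ v, v ∉ insert α S' → h v = v) (hgα : g α ≠ α) (hhα : h α ≠ α) :
    g α ∈ S ∧ h α ∈ S' ∧ g * h * g⁻¹ * h⁻¹ = tri α (g α) (h α) := by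
  have hdis : ∀ v, v ∈ S → v ∉ S' := fun v h1 h2 => Finset.disjoint_left.1 hd h2 h1
  have hdis' : ∀ v, v ∈ S' → v ∉ S := fun v h1 h2 => Finset.disjoint_left.1 hd h1 h2
  have hp : g α ∈ S := by
    have h1 := mem_of_move hg (Finset.mem_insert_self α S)
    exact (Finset.mem_insert.1 h1).resolve_left hgα
  have hr : h α ∈ S' := by
    have h1 := mem_of_move hh (Finset.mem_insert_self α S')
    exact (Finset.mem_insert.1 h1).resolve_left hhα
  have hgS' : ∀ v, v ∈ S' → g v = v := fun v hv => hg v (by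
    rw [Finset.mem_insert, not_or]
    exact ⟨fun h1 => hS' (h1 ▸ hv), hdis' v hv⟩)
  have hhS : ∀ v, v ∈ S → h v = v := fun v hv => hh v (by
    rw [Finset.mem_insert, not_or]
    exact ⟨fun h1 => hS (h1 ▸ hv), hdis v hv⟩)
  have gg : ∀ v, g (g⁻¹ v) = v := fun v => g.apply_symm_apply v
  have gg' : ∀ v, g⁻¹ (g v) = v := fun v => g.symm_apply_apply v
  have hhh : ∀ v, h (h⁻¹ v) = v := fun v => h.apply_symm_apply v
  have hhh' : ∀ v, h⁻¹ (h v) = v := fun v => h.symm_apply_apply v
  have hg' : ∀ v, v ∉ insert α S → g⁻¹ v = v := inv_fix hg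
  have hh' : ∀ v, v ∉ insert α S' → h⁻¹ v = v := inv_fix hh
  have hgS'i : ∀ v, v ∈ S' → g⁻¹ v = v := fun v hv => by
    have h1 := gg' v
    rw [hgS' v hv] at h1
    exact h1
  have hhSi : ∀ v, v ∈ S → h⁻¹ v = v := fun v hv => by
    have h1 := hhh' v
    rw [hhS v hv] at h1
    exact h1
  refine ⟨hp, hr, ?_⟩
  have hαp : g α ≠ α := hgα
  have hpr : g α ≠ h α := fun h1 => hdis _ hp (h1 ▸ hr)
  ext v
  simp only [Equiv.Perm.mul_apply, tri]
  by_cases h1 : v = α
  · subst h1
    have hq : h⁻¹ v ∈ S' := by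
      have h2 := mem_of_move hh' (Finset.mem_insert_self v S')
      refine (Finset.mem_insert.1 h2).resolve_left fun h3 => hhα ?_
      rw [← h3, hhh, h3]
    rw [hgS'i _ hq, hhh, Equiv.swap_apply_of_ne_of_ne hgα.symm hhα.symm, Equiv.swap_apply_left]
  · by_cases h2 : v = g α
    · rw [h2, hhSi _ hp, gg', hgS' _ hr, Equiv.swap_apply_left,
        Equiv.swap_apply_of_ne_of_ne hhα (Ne.symm hpr)]
    · by_cases h3 : v = h α
      · have hs : g⁻¹ α ∈ S := by
          have h4 := mem_of_move hg' (Finset.mem_insert_self α S)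
          refine (Finset.mem_insert.1 h4).resolve_left fun h5 => hgα ?_
          have h6 := gg α
          rw [h5] at h6
          exact h6
        rw [h3, hhh', hhS _ hs, gg, Equiv.swap_apply_right, Equiv.swap_apply_right]
      · rw [Equiv.swap_apply_of_ne_of_ne h2 h3, Equiv.swap_apply_of_ne_of_ne h1 h2]
        by_cases h4 : v ∈ S
        · have h5 : g⁻¹ v ∈ S := by
            have h6 := mem_of_move hg' (Finset.mem_insert_of_mem (a := v) (b := α) h4)
            refine (Finset.mem_insert.1 h6).resolve_left fun h7 => h2 ?_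
            rw [← h7, gg]
          rw [hhSi _ h4, hhS _ h5, gg]
        · by_cases h5 : v ∈ S'
          · have h6 : h⁻¹ v ∈ S' := by
              have h7 := mem_of_move hh' (Finset.mem_insert_of_mem (a := v) (b := α) h5)
              refine (Finset.mem_insert.1 h7).resolve_left fun h8 => h3 ?_
              rw [← h8, hhh]
            rw [hgS'i _ h6, hhh, hgS' _ h5]
          · have e1 : v ∉ insert α S := by
              rw [Finset.mem_insert, not_or]
              exact ⟨h1, h4⟩
            have e2 : v ∉ insert α S' := by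
              rw [Finset.mem_insert, not_or]
              exact ⟨h1, h5⟩
            rw [hh' _ e2, hg' _ e1, hh _ e2, hg _ e1]

theorem ex_move {H : Subgroup (Equiv.Perm V)} {S : Finset V} (hS : Free H S) {α : V}
    (h : ¬ Free H (insert α S)) : ∃ g ∈ H, (∀ v, v ∉ insert α S → g v = v) ∧ g α ≠ α := by
  unfold Free at h
  push Not at h
  obtain ⟨g, hg, hg1, hg2⟩ := h
  refine ⟨g, hg, hg1, fun h3 => hg2 (hS g hg fun v hv => ?_)⟩
  by_cases hvα : v = α
  · rw [hvα, h3]
  · exact hg1 v (by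
      rw [Finset.mem_insert, not_or]
      exact ⟨hvα, hv⟩)

theorem t_SING (h1 : S_PIG) : S_SING := by
  intro V _ _ H a B hidx hB
  classical
  have hcard : ∀ S, Free H S → S.card ≤ a := by
    intro S hS
    by_contra hlt
    push Not at hlt
    obtain ⟨x, hx, hx1, hxf⟩ := h1 V H S (hidx.trans_le (Nat.factorial_le hlt.le))
    exact hx1 (hS x hx hxf)
  have hempty : Free H ∅ := fun x _ hx => Equiv.ext fun v => hx v (Finset.notMem_empty v)
  obtain ⟨S, hSm, hSmax⟩ := Finset.exists_max_image (Finset.univ.filter fun T => Free H T)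
    Finset.card ⟨∅, Finset.mem_filter.2 ⟨Finset.mem_univ _, hempty⟩⟩
  obtain ⟨S', hSm', hSmax'⟩ := Finset.exists_max_image
    (Finset.univ.filter fun T => Free H T ∧ Disjoint T S) Finset.card
    ⟨∅, Finset.mem_filter.2 ⟨Finset.mem_univ _, hempty, Finset.disjoint_empty_left _⟩⟩
  have hSf := (Finset.mem_filter.1 hSm).2
  obtain ⟨hSf', hd⟩ := (Finset.mem_filter.1 hSm').2
  have hsub : B ⊆ S ∪ S' := by
    intro α hα
    by_contra hn
    rw [Finset.mem_union, not_or] at hn
    have n1 : ¬ Free H (insert α S) := by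
      intro hf
      have h2 := hSmax _ (Finset.mem_filter.2 ⟨Finset.mem_univ _, hf⟩)
      rw [Finset.card_insert_of_notMem hn.1] at h2
      omega
    have n2 : ¬ Free H (insert α S') := by
      intro hf
      have h2 := hSmax' _ (Finset.mem_filter.2 ⟨Finset.mem_univ _, hf,
        (Finset.disjoint_insert_left.2 ⟨hn.1, hd⟩)⟩)
      rw [Finset.card_insert_of_notMem hn.2] at h2
      omega
    obtain ⟨g, hg, hg1, hg2⟩ := ex_move hSf n1
    obtain ⟨h, hh, hh1, hh2⟩ := ex_move hSf' n2
    obtain ⟨hp, hr, hc⟩ := comm_eq hn.1 hn.2 hd hg1 hh1 hg2 hh2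
    have hmem : tri α (g α) (h α) ∈ H := by
      rw [← hc]
      exact H.mul_mem (H.mul_mem (H.mul_mem hg hh) (H.inv_mem hg)) (H.inv_mem hh)
    exact hg2 (hB α hα (g α) (Or.inr ⟨h α, hg2.symm, fun h3 =>
      Finset.disjoint_left.1 hd (h3 ▸ hr) hp, hh2, hmem⟩))
  calc B.card ≤ (S ∪ S').card := Finset.card_le_card hsub
    _ ≤ S.card + S'.card := Finset.card_union_le _ _
    _ ≤ 2 * a := by
      have := hcard S hSf
      have := hcard S' hSf'
      omega

end Pool.Agent.H344.SCSing
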