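import Pool.Agent.H812.SF.Stm3

set_option autoImplicit false

namespace Pool.Agent.H344.SfPARK

open Pool.Agent.N229.SC Pool.Agent.H812.SF

theorem no_zero (x c : ℕ → ℝ) (hx : ∀ m, x (m + 2) = c m * x (m + 1) - x m) (k : ℕ)
    (h0 : x k = 0) (h1 : x (k + 1) = 0) : ∀ j, x (k + j) = 0 ∧ x (k + j + 1) = 0 := by
  intro j
  induction j with
  | zero => exact ⟨h0, h1⟩
  | succ j ih =>
    refine ⟨ih.2, ?_⟩
    have h := hx (k + j)
    rw [ih.1, ih.2] at h
    have e : k + (j + 1) + 1 = k + j + 2 := by ring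
    rw [e, h]
    ring

theorem proof_PARK (hD : S_DYN) (hN : S_N1) : S_PARK := by
  intro ε hε hε9 K
  obtain ⟨φ, hφ⟩ : ∃ φ : ℝ, φ = (1 + Real.sqrt 5) / 2 := ⟨_, rfl⟩
  have h5 : Real.sqrt 5 ^ 2 = 5 := Real.sq_sqrt (by norm_num)
  have h5a : (2236 : ℝ) / 1000 ≤ Real.sqrt 5 := Real.le_sqrt_of_sq_le (by norm_num)
  have h5b : Real.sqrt 5 ≤ 22361 / 10000 := by
    rw [Real.sqrt_le_left (by norm_num)]
    norm_num
  have hφ2 : φ ^ 2 = φ + 1 := by
    rw [hφ]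
    nlinarith
  have hφ0 : 0 < φ := by
    rw [hφ]
    linarith
  obtain ⟨δ, hδ, hδ4, L, H⟩ := hD φ ε hφ2 hφ0 hε (by linarith)
  refine ⟨max 10000 (2 * (K * (L + 1) + 5) / δ), fun ρ hρ h1 => ?_⟩
  have hρ1 : (10000 : ℝ) ≤ ρ := (le_max_left _ _).trans hρ
  have hρ2 : 2 * ((K : ℝ) * (L + 1) + 5) / δ ≤ ρ := (le_max_right _ _).trans hρ
  have hρ0 : 0 < ρ := by linarith
  obtain ⟨hrec, ⟨C, hC⟩, hpos⟩ := hN ρ hρ0
  obtain ⟨x, hxd⟩ : ∃ x : ℕ → ℝ, x = fun m => Fb ρ m := ⟨_, rfl⟩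
  obtain ⟨c, hcd⟩ : ∃ c : ℕ → ℝ, c = fun m : ℕ => 2 * ((m : ℝ) + 1) / ρ := ⟨_, rfl⟩
  have hx : ∀ m, x (m + 2) = c m * x (m + 1) - x m := by
    intro m
    rw [hxd, hcd]
    have := hrec m
    simp only
    linarith
  have hnz : ∀ k, ¬ (x k = 0 ∧ x (k + 1) = 0) := by
    rintro k ⟨h2, h3⟩
    obtain ⟨j, hj⟩ := exists_nat_ge ρ
    have h4 := (no_zero x c hx k h2 h3 j).1
    have h6 := (hpos (k + j) (by
      push_cast
      have : (0 : ℝ) ≤ k := Nat.cast_nonneg k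
      linarith)).1
    rw [hxd] at h4
    simp only at h4
    rw [h4] at h6
    exact lt_irrefl _ h6
  obtain ⟨M, hM⟩ : ∃ M : ℕ, M = ⌈ρ * (φ + δ) / 2⌉₊ := ⟨_, rfl⟩
  have hM1 : ρ * (φ + δ) / 2 ≤ M := by
    rw [hM]
    exact Nat.le_ceil _
  have hM2 : (M : ℝ) < ρ * (φ + δ) / 2 + 1 := by
    rw [hM]
    exact Nat.ceil_lt_add_one (by positivity)
  have hLδ : 2 * ((K : ℝ) * (L + 1) + 5) ≤ δ * ρ := by
    rw [div_le_iff₀ hδ] at hρ2
    linarith
  have hc : ∀ m, M ≤ m → m ≤ M + K * (L + 1) → φ + δ ≤ c m ∧ c m ≤ φ + 2 * δ := by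
    intro m hm1 hm2
    have hm1' : (M : ℝ) ≤ m := by exact_mod_cast hm1
    have hm2' : (m : ℝ) ≤ M + K * (L + 1) := by exact_mod_cast hm2
    rw [hcd]
    constructor
    · show φ + δ ≤ 2 * ((m : ℝ) + 1) / ρ
      rw [le_div_iff₀ hρ0]
      linarith
    · show 2 * ((m : ℝ) + 1) / ρ ≤ φ + 2 * δ
      rw [div_le_iff₀ hρ0]
      nlinarith
  have hx1 : x 1 = 0 := by
    rw [hxd]
    exact h1
  have hx2 : x 2 ≠ 0 := fun h => hnz 1 ⟨hx1, h⟩
  have hwin : ∀ k, k < K → ∀ m, M + k * (L + 1) ≤ m → m ≤ M + k * (L + 1) + L →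
      φ + δ ≤ c m ∧ c m ≤ φ + 2 * δ := by
    intro k hk m hm1 hm2
    refine hc m ((Nat.le_add_right _ _).trans hm1) ?_
    have h2 : (k + 1) * (L + 1) ≤ K * (L + 1) := Nat.mul_le_mul_right _ hk
    have h3 : (k + 1) * (L + 1) = k * (L + 1) + L + 1 := by ring
    omega
  have hsol : ∀ k, ∃ n : ℕ, k < K → M + k * (L + 1) ≤ n ∧ n ≤ M + k * (L + 1) + L ∧
      x (n + 1) ≠ 0 ∧ ε ≤ -(x n / x (n + 1)) ∧ -(x n / x (n + 1)) ≤ 3 * ε := by
    intro k
    by_cases hk : k < K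
    · have hor : x (M + k * (L + 1)) ≠ 0 ∨ x (M + k * (L + 1) + 1) ≠ 0 := by
        by_contra h
        push Not at h
        exact hnz _ h
      obtain ⟨n, hn1, hn2, hn3, hn4, hn5⟩ := H c x (M + k * (L + 1)) (hwin k hk) hx hor
      exact ⟨n, fun _ => ⟨hn1, hn2, hn3, hn4, hn5⟩⟩
    · exact ⟨0, fun h => absurd h hk⟩
  choose n hn using hsol
  have hCx : ∀ m, |x m| ≤ C := by
    intro m
    rw [hxd]
    exact hC m
  have hC0 : 0 ≤ C := (abs_nonneg _).trans (hCx 0)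
  refine ⟨fun k => ⟨ρ, n k, fun i => -(x (n k + i) / x (n k + 1)),
    fun i => -(x (1 + i) / x 2)⟩, ?_, ?_⟩
  · intro k hk
    obtain ⟨hn1, hn2, hn3, hn4, hn5⟩ := hn k hk
    have hcn := hwin k hk (n k) hn1 hn2
    rw [hcd] at hcn
    have hcn1 : φ + δ ≤ 2 * ((n k : ℝ) + 1) / ρ := hcn.1
    have hcn2 : 2 * ((n k : ℝ) + 1) / ρ ≤ φ + 2 * δ := hcn.2
    rw [le_div_iff₀ hρ0] at hcn1
    rw [div_le_iff₀ hρ0] at hcn2
    refine ⟨?_, rfl, ?_, ?_, C / |x (n k + 1)| + C / |x 2|, ?_⟩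
    · refine ⟨hρ1, ?_, ?_, ?_, ?_, ?_, ?_, ?_, ?_, ?_⟩
      · show 4 / 5 ≤ (n k : ℝ) / ρ
        rw [le_div_iff₀ hρ0]
        have hn1' : (M : ℝ) ≤ n k := by exact_mod_cast (Nat.le_add_right _ _).trans hn1
        have h6 : 8 / 5 ≤ φ + δ := by
          rw [hφ]
          linarith
        nlinarith
      · show (n k : ℝ) / ρ ≤ 41 / 50
        rw [div_le_iff₀ hρ0]
        have h6 : φ + 2 * δ ≤ 82 / 50 := by
          rw [hφ]
          linarith
        nlinarith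
      · show -(x (n k + 1) / x (n k + 1)) = -1
        rw [div_self hn3]
      · show -(x (1 + 1) / x 2) = -1
        rw [div_self hx2]
      · show 0 < -(x (n k + 0) / x (n k + 1))
        exact hε.trans_le hn4
      · show -(x (n k + 0) / x (n k + 1)) ≤ 31 / 10 ^ 10
        refine hn5.trans ?_
        norm_num at hε9 ⊢
        linarith
      · show |-(x (1 + 0) / x 2)| ≤ -(x (n k + 0) / x (n k + 1)) / 10 ^ 6
        rw [show (1 + 0 : ℕ) = 1 from rfl, hx1, zero_div, neg_zero, abs_zero]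
        have : 0 ≤ -(x (n k + 0) / x (n k + 1)) := hε.le.trans hn4
        positivity
      · intro i
        show -(x (n k + (i + 2)) / x (n k + 1)) = 2 * ((n k : ℝ) + i + 1) / ρ *
          -(x (n k + (i + 1)) / x (n k + 1)) - -(x (n k + i) / x (n k + 1))
        have h6 := hx (n k + i)
        rw [hcd] at h6
        simp only at h6
        push_cast at h6
        rw [show n k + (i + 2) = n k + i + 2 by ring, show n k + (i + 1) = n k + i + 1 by ring,
          h6]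
        ring
      · intro i
        show -(x (1 + (i + 2)) / x 2) = 2 * ((i : ℝ) + 2) / ρ * -(x (1 + (i + 1)) / x 2) -
          -(x (1 + i) / x 2)
        have h6 := hx (1 + i)
        rw [hcd] at h6
        simp only at h6
        push_cast at h6
        rw [show 1 + (i + 2) = 1 + i + 2 by ring, show 1 + (i + 1) = 1 + i + 1 by ring, h6]
        ring
    · exact hn5
    · show -(x (n k + 0) / x (n k + 1)) = -(Fb ρ (n k) / Fb ρ (n k + 1))
      rw [hxd]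
      rfl
    · intro i
      have e1 : 0 < |x (n k + 1)| := abs_pos.2 hn3
      have e2 : 0 < |x 2| := abs_pos.2 hx2
      have e3 : 0 ≤ C / |x (n k + 1)| := by positivity
      have e4 : 0 ≤ C / |x 2| := by positivity
      constructor
      · show |-(x (n k + i) / x (n k + 1))| ≤ C / |x (n k + 1)| + C / |x 2|
        rw [abs_neg, abs_div]
        have := div_le_div_of_nonneg_right (hCx (n k + i)) e1.le
        linarith
      · show |-(x (1 + i) / x 2)| ≤ C / |x (n k + 1)| + C / |x 2|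
        rw [abs_neg, abs_div]
        have := div_le_div_of_nonneg_right (hCx (1 + i)) e2.le
        linarith
  · intro j k hjk hk
    show n j < n k
    obtain ⟨-, h2, -⟩ := hn j (hjk.trans hk)
    obtain ⟨h3, -⟩ := hn k hk
    have h4 : (j + 1) * (L + 1) ≤ k * (L + 1) := Nat.mul_le_mul_right _ hjk
    have h5 : (j + 1) * (L + 1) = j * (L + 1) + L + 1 := by ring
    omega

end Pool.Agent.H344.SfPARK
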