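import Pool.Agent.H133.ZM.Stm

set_option autoImplicit false

/-!
# ZM/A1 (project of helper133, by helper344): two normal forms agree
-/

namespace Pool.Agent.H344.ZM

open Finset Pool.Agent.H133.ZM

/-- the weight of a value -/
def wt (t : ℤ) : ℤ := if 1 ≤ t then t - 1 else -t

/-- the contribution to the negative sum -/
def ng (t : ℤ) : ℤ := if t ≤ 0 then 1 - t else 0

theorem wt_nonneg (t : ℤ) : 0 ≤ wt t := by
  unfold wt
  split_ifs <;> omega

theorem ng_nonneg (t : ℤ) : 0 ≤ ng t := by
  unfold ng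
  split_ifs <;> omega

theorem wt_pos {t : ℤ} (h0 : t ≠ 0) (h1 : t ≠ 1) : 1 ≤ wt t := by
  unfold wt
  split_ifs <;> omega

theorem ng_pos {t : ℤ} (h0 : t ≤ 0) : 1 ≤ ng t := by
  unfold ng
  split_ifs
  omega

set_option linter.unusedSectionVars false

variable {ι : Type} [DecidableEq ι] {m : ℕ}

/-- the description of `M` -/
def Desc (m : ℕ) (M : Finset ι) (c : ι → ZMod m) (a g : ZMod m) (v : ZMod m → ℤ) : Prop :=
  (∀ e ∈ M, c e = a + g * ((v (c e) : ℤ) : ZMod m)) ∧
    ∑ e ∈ M.filter (fun e => 1 ≤ v (c e)), v (c e) ≤ (m : ℤ) - 1 ∧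
    ∑ e ∈ M.filter (fun e => v (c e) ≤ 0), (1 - v (c e)) ≤ (m : ℤ) - 1

theorem flip_desc {M : Finset ι} {c : ι → ZMod m} {a g : ZMod m} {v : ZMod m → ℤ}
    (h : Desc m M c a g v) : Desc m M c (a + g) (-g) (fun x => 1 - v x) := by
  obtain ⟨h1, h2, h3⟩ := h
  refine ⟨?_, ?_, ?_⟩
  · intro e he
    have h4 := h1 e he
    push_cast
    have h5 : a + g + -g * (1 - ((v (c e) : ℤ) : ZMod m)) = a + g * ((v (c e) : ℤ) : ZMod m) := by
      ring
    rw [h5]
    exact h4
  · have h4 : M.filter (fun e => 1 ≤ 1 - v (c e)) = M.filter (fun e => v (c e) ≤ 0) :=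
      filter_congr fun e _ => by omega
    rw [h4]
    exact h3
  · have h4 : M.filter (fun e => 1 - v (c e) ≤ 0) = M.filter (fun e => 1 ≤ v (c e)) :=
      filter_congr fun e _ => by omega
    rw [h4]
    refine le_trans (le_of_eq (sum_congr rfl fun e _ => by ring)) h2

/-- the sum of the weights -/
theorem sum_wt {M : Finset ι} {c : ι → ZMod m} {a g : ZMod m} {v : ZMod m → ℤ}
    (h : Desc m M c a g v) : ∑ e ∈ M, wt (v (c e)) ≤ 2 * (m : ℤ) - 2 - M.card := by
  obtain ⟨_, h2, h3⟩ := h
  have h4 : ∑ e ∈ M, (wt (v (c e)) + 1) = ∑ e ∈ M.filter (fun e => 1 ≤ v (c e)), v (c e)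
      + ∑ e ∈ M.filter (fun e => v (c e) ≤ 0), (1 - v (c e)) := by
    rw [sum_filter, sum_filter, ← sum_add_distrib]
    refine sum_congr rfl fun e _ => ?_
    unfold wt
    split_ifs <;> omega
  rw [sum_add_distrib, sum_const, nsmul_eq_mul, mul_one] at h4
  linarith

theorem sum_ng {M : Finset ι} {c : ι → ZMod m} {a g : ZMod m} {v : ZMod m → ℤ}
    (h : Desc m M c a g v) : ∑ e ∈ M, ng (v (c e)) ≤ (m : ℤ) - 1 := by
  obtain ⟨_, _, h3⟩ := h
  rw [sum_filter] at h3
  exact h3

theorem val_le {M : Finset ι} {c : ι → ZMod m} {a g : ZMod m} {v : ZMod m → ℤ}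
    (h : Desc m M c a g v) {e : ι} (he : e ∈ M) : v (c e) ≤ (m : ℤ) - 1 := by
  obtain ⟨_, h2, h3⟩ := h
  by_cases h1 : 1 ≤ v (c e)
  · refine le_trans ?_ h2
    exact single_le_sum (f := fun e => v (c e)) (fun e he => by
      have := (mem_filter.1 he).2
      omega) (mem_filter.2 ⟨he, h1⟩)
  · have h4 : 0 ≤ ∑ e ∈ M.filter (fun e => v (c e) ≤ 0), (1 - v (c e)) :=
      sum_nonneg fun e he => by
        have := (mem_filter.1 he).2
        omega
    omega

/-- the number of the elements with value `1` -/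
theorem count_one {M S : Finset ι} (hS : S ⊆ M) {c : ι → ZMod m} {a g : ZMod m} {v : ZMod m → ℤ}
    (h : Desc m M c a g v) :
    (M.card : ℤ) + S.card - 3 * m + 3 ≤ (S.filter (fun e => c e = a + g)).card := by
  obtain ⟨h1, h2, h3⟩ := h
  -- number of elements with `v ≤ 0`
  have hneg : ((M.filter (fun e => v (c e) ≤ 0)).card : ℤ) ≤ (m : ℤ) - 1 := by
    refine le_trans ?_ h3
    have : ((M.filter (fun e => v (c e) ≤ 0)).card : ℤ)
        = ∑ e ∈ M.filter (fun e => v (c e) ≤ 0), (1 : ℤ) := by
      rw [sum_const, nsmul_eq_mul, mul_one]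
    rw [this]
    refine sum_le_sum fun e he => ?_
    have := (mem_filter.1 he).2
    omega
  have hpos : 2 * ((M.filter (fun e => 1 ≤ v (c e))).card : ℤ)
      ≤ (m : ℤ) - 1 + (M.filter (fun e => v (c e) = 1)).card := by
    have e1 : ∑ e ∈ M.filter (fun e => 1 ≤ v (c e)), v (c e)
        = ∑ e ∈ M, (if 1 ≤ v (c e) then v (c e) else 0) := sum_filter _ _
    have e2 : ((M.filter (fun e => 1 ≤ v (c e))).card : ℤ)
        = ∑ e ∈ M, (if 1 ≤ v (c e) then 1 else 0) := by
      rw [card_filter]
      push_cast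
      rfl
    have e3 : ((M.filter (fun e => v (c e) = 1)).card : ℤ)
        = ∑ e ∈ M, (if v (c e) = 1 then 1 else 0) := by
      rw [card_filter]
      push_cast
      rfl
    have e4 : 2 * ∑ e ∈ M, (if 1 ≤ v (c e) then (1 : ℤ) else 0)
        ≤ ∑ e ∈ M, (if 1 ≤ v (c e) then v (c e) else 0)
          + ∑ e ∈ M, (if v (c e) = 1 then (1 : ℤ) else 0) := by
      rw [mul_sum, ← sum_add_distrib]
      refine sum_le_sum fun e _ => ?_
      split_ifs <;> omega
    rw [e2, e3]
    rw [e1] at h2
    linarith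
  have htot : ((M.filter (fun e => 1 ≤ v (c e))).card : ℤ)
      + (M.filter (fun e => v (c e) ≤ 0)).card = M.card := by
    have e1 := card_filter_add_card_filter_not (s := M) (fun e => 1 ≤ v (c e))
    have e2 : M.filter (fun e => ¬ 1 ≤ v (c e)) = M.filter (fun e => v (c e) ≤ 0) :=
      filter_congr fun e _ => by omega
    rw [e2] at e1
    exact_mod_cast e1
  have hsub : (M.filter (fun e => v (c e) = 1)).card
      ≤ (S.filter (fun e => c e = a + g)).card + (M \ S).card := by
    refine le_trans (card_le_card ?_) (card_union_le _ _)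
    intro e he
    rw [mem_filter] at he
    rw [mem_union, mem_filter, mem_sdiff]
    by_cases hS' : e ∈ S
    · left
      refine ⟨hS', ?_⟩
      have h5 := h1 e he.1
      rw [he.2, Int.cast_one, mul_one] at h5
      exact h5
    · right
      exact ⟨he.1, hS'⟩
  have hsd : ((M \ S).card : ℤ) + S.card = M.card := by
    have := card_sdiff_add_card_eq_card hS
    exact_mod_cast this
  have hsub' : ((M.filter (fun e => v (c e) = 1)).card : ℤ)
      ≤ (S.filter (fun e => c e = a + g)).card + (M \ S).card := by exact_mod_cast hsub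
  linarith

/-- the two inequalities -/
theorem facts (hm : 3 ≤ m) {M S : Finset ι} (hS : S ⊆ M) {c : ι → ZMod m} {a g g' : ZMod m}
    {v : ZMod m → ℤ} (h : Desc m M c a g v) (hg : IsUnit g) (hg' : IsUnit g') :
    wt (v (a + g')) * (S.filter (fun e => c e = a + g')).card
      + (S.filter (fun e => c e ≠ a ∧ c e ≠ a + g ∧ c e ≠ a + g')).card
        ≤ 2 * (m : ℤ) - 2 - M.card ∧
    ((S.filter (fun e => c e = a)).card : ℤ)
      + ng (v (a + g')) * (S.filter (fun e => c e = a + g')).card ≤ (m : ℤ) - 1 := by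
  have h1 := h.1
  have : Fact (1 < m) := ⟨by omega⟩
  constructor
  · refine le_trans ?_ (sum_wt h)
    have e1 : wt (v (a + g')) * ((S.filter (fun e => c e = a + g')).card : ℤ)
        = ∑ e ∈ S, (if c e = a + g' then wt (v (a + g')) else 0) := by
      rw [← sum_filter, sum_const, nsmul_eq_mul, mul_comm]
    have e2 : ((S.filter (fun e => c e ≠ a ∧ c e ≠ a + g ∧ c e ≠ a + g')).card : ℤ)
        = ∑ e ∈ S, (if c e ≠ a ∧ c e ≠ a + g ∧ c e ≠ a + g' then (1 : ℤ) else 0) := by
      rw [← sum_filter, sum_const, nsmul_eq_mul, mul_one]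
    rw [e1, e2, ← sum_add_distrib]
    refine le_trans (sum_le_sum (g := fun e => wt (v (c e))) fun e he => ?_)
      (sum_le_sum_of_subset_of_nonneg hS fun e _ _ => wt_nonneg _)
    by_cases hc : c e = a + g'
    · rw [if_pos hc, if_neg (fun hh => hh.2.2 hc), add_zero, ← hc]
    · rw [if_neg hc, zero_add]
      split_ifs with h2
      · refine wt_pos (fun h0 => ?_) (fun h0 => ?_)
        · have h5 := h1 e (hS he)
          rw [h0, Int.cast_zero, mul_zero, add_zero] at h5
          exact h2.1 h5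
        · have h5 := h1 e (hS he)
          rw [h0, Int.cast_one, mul_one] at h5
          exact h2.2.1 h5
      · exact wt_nonneg _
  · refine le_trans ?_ (sum_ng h)
    have e1 : ng (v (a + g')) * ((S.filter (fun e => c e = a + g')).card : ℤ)
        = ∑ e ∈ S, (if c e = a + g' then ng (v (a + g')) else 0) := by
      rw [← sum_filter, sum_const, nsmul_eq_mul, mul_comm]
    have e2 : ((S.filter (fun e => c e = a)).card : ℤ)
        = ∑ e ∈ S, (if c e = a then (1 : ℤ) else 0) := by
      rw [← sum_filter, sum_const, nsmul_eq_mul, mul_one]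
    rw [e1, e2, ← sum_add_distrib]
    refine le_trans (sum_le_sum (g := fun e => ng (v (c e))) fun e he => ?_)
      (sum_le_sum_of_subset_of_nonneg hS fun e _ _ => ng_nonneg _)
    by_cases hc : c e = a
    · have hne : ¬ c e = a + g' := by
        intro hh
        rw [hc] at hh
        have : g' = 0 := by
          have h6 : a + 0 = a + g' := by rw [add_zero]; exact hh
          exact (add_left_cancel h6).symm
        exact hg'.ne_zero this
      rw [if_pos hc, if_neg hne, add_zero]
      refine ng_pos ?_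
      by_contra hpos
      rw [not_le] at hpos
      have h5 := h1 e (hS he)
      have h6 : g * ((v (c e) : ℤ) : ZMod m) = 0 := by
        rw [hc] at h5
        have h7 : a + 0 = a + g * ((v a : ℤ) : ZMod m) := by rw [add_zero]; exact h5
        rw [hc]
        exact (add_left_cancel h7).symm
      have h7 : ((v (c e) : ℤ) : ZMod m) = 0 := (hg.mul_right_eq_zero).1 h6
      rw [ZMod.intCast_zmod_eq_zero_iff_dvd] at h7
      have h8 := Int.le_of_dvd hpos h7
      have h9 := val_le h (hS he)
      omega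
    · rw [if_neg hc, zero_add]
      split_ifs with h2
      · rw [h2]
      · exact ng_nonneg _

theorem wt_two {t : ℤ} (h : 2 ≤ t) : wt t = t - 1 := by
  unfold wt
  split_ifs <;> omega

theorem wt_neg {t : ℤ} (h : t ≤ -1) : wt t = -t := by
  unfold wt
  split_ifs <;> omega

theorem ng_neg {t : ℤ} (h : t ≤ -1) : ng t = 1 - t := by
  unfold ng
  rw [if_pos (by omega)]

/-- the case of a common first element -/
theorem core (hm : 3 ≤ m) {M M' : Finset ι} {c : ι → ZMod m} {a g g' : ZMod m}
    {v v' : ZMod m → ℤ} (h : Desc m M c a g v) (h' : Desc m M' c a g' v') (hg : IsUnit g)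
    (hg' : IsUnit g') (hM : LL m ≤ M.card) (hM' : LL m ≤ M'.card)
    (hS : LL m ≤ (M ∩ M').card + 1) : g' = g := by
  by_contra hne
  have : Fact (1 < m) := ⟨by omega⟩
  obtain ⟨S, hSd⟩ : ∃ S : Finset ι, S = M ∩ M' := ⟨_, rfl⟩
  rw [← hSd] at hS
  have hSM : S ⊆ M := by
    rw [hSd]
    exact inter_subset_left
  have hSM' : S ⊆ M' := by
    rw [hSd]
    exact inter_subset_right
  obtain ⟨f1, f2⟩ := facts (g' := g') hm hSM h hg hg'
  obtain ⟨f1', f2'⟩ := facts (g' := g) hm hSM' h' hg' hg
  have c1 := count_one hSM h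
  have c1' := count_one hSM' h'
  have hρ : S.filter (fun e => c e ≠ a ∧ c e ≠ a + g' ∧ c e ≠ a + g)
      = S.filter (fun e => c e ≠ a ∧ c e ≠ a + g ∧ c e ≠ a + g') :=
    filter_congr fun e _ => by tauto
  rw [hρ] at f1'
  have ha1 : a ≠ a + g := by
    intro hh
    have h6 : a + 0 = a + g := by rw [add_zero]; exact hh
    exact hg.ne_zero (add_left_cancel h6).symm
  have ha2 : a ≠ a + g' := by
    intro hh
    have h6 : a + 0 = a + g' := by rw [add_zero]; exact hh
    exact hg'.ne_zero (add_left_cancel h6).symm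
  have ha3 : a + g ≠ a + g' := fun hh => hne (add_left_cancel hh).symm
  have hpart : (S.card : ℤ) = (S.filter (fun e => c e = a)).card
      + (S.filter (fun e => c e = a + g)).card + (S.filter (fun e => c e = a + g')).card
      + (S.filter (fun e => c e ≠ a ∧ c e ≠ a + g ∧ c e ≠ a + g')).card := by
    rw [card_filter, card_filter, card_filter, card_filter]
    push_cast
    rw [← sum_add_distrib, ← sum_add_distrib, ← sum_add_distrib]
    have e1 : (S.card : ℤ) = ∑ e ∈ S, (1 : ℤ) := by
      rw [sum_const, nsmul_eq_mul, mul_one]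
    rw [e1]
    refine sum_congr rfl fun e _ => ?_
    by_cases b1 : c e = a
    · rw [if_pos b1, if_neg (by rw [b1]; exact ha1), if_neg (by rw [b1]; exact ha2),
        if_neg (fun hh => hh.1 b1)]
      norm_num
    · by_cases b2 : c e = a + g
      · rw [if_neg b1, if_pos b2, if_neg (by rw [b2]; exact ha3), if_neg (fun hh => hh.2.1 b2)]
        norm_num
      · by_cases b3 : c e = a + g'
        · rw [if_neg b1, if_neg b2, if_pos b3, if_neg (fun hh => hh.2.2 b3)]
          norm_num
        · rw [if_neg b1, if_neg b2, if_neg b3, if_pos ⟨b1, b2, b3⟩]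
          norm_num
  -- existence of the elements with values `a + g`, `a + g'`
  have hLL : LL m = m + m / 2 := rfl
  have hx1 : 1 ≤ ((S.filter (fun e => c e = a + g)).card : ℤ) := by omega
  have hy1 : 1 ≤ ((S.filter (fun e => c e = a + g')).card : ℤ) := by omega
  obtain ⟨e1, he1⟩ : (S.filter (fun e => c e = a + g)).Nonempty := by
    rw [← card_pos]
    omega
  obtain ⟨e2, he2⟩ : (S.filter (fun e => c e = a + g')).Nonempty := by
    rw [← card_pos]
    omega
  rw [mem_filter] at he1 he2
  have k1 : g' = g * ((v (a + g') : ℤ) : ZMod m) := by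
    have h5 := h.1 e2 (hSM he2.1)
    rw [he2.2] at h5
    exact add_left_cancel h5
  have k2 : g = g' * ((v' (a + g) : ℤ) : ZMod m) := by
    have h5 := h'.1 e1 (hSM' he1.1)
    rw [he1.2] at h5
    exact add_left_cancel h5
  obtain ⟨t, ht⟩ : ∃ t : ℤ, t = v (a + g') := ⟨_, rfl⟩
  obtain ⟨t', ht'⟩ : ∃ t' : ℤ, t' = v' (a + g) := ⟨_, rfl⟩
  rw [← ht] at k1 f1 f2
  rw [← ht'] at k2 f1' f2'
  have t0 : t ≠ 0 := by
    rintro rfl
    rw [Int.cast_zero, mul_zero] at k1
    exact hg'.ne_zero k1
  have t1 : t ≠ 1 := by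
    rintro rfl
    rw [Int.cast_one, mul_one] at k1
    exact hne k1
  have t0' : t' ≠ 0 := by
    rintro rfl
    rw [Int.cast_zero, mul_zero] at k2
    exact hg.ne_zero k2
  have t1' : t' ≠ 1 := by
    rintro rfl
    rw [Int.cast_one, mul_one] at k2
    exact hne k2.symm
  have hdvd : (m : ℤ) ∣ t * t' - 1 := by
    rw [← ZMod.intCast_zmod_eq_zero_iff_dvd]
    push_cast
    have h5 : g * (((t : ℤ) : ZMod m) * ((t' : ℤ) : ZMod m) - 1) = 0 := by
      have h6 : g * (((t : ℤ) : ZMod m) * ((t' : ℤ) : ZMod m) - 1)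
          = g * ((t : ℤ) : ZMod m) * ((t' : ℤ) : ZMod m) - g := by ring
      rw [h6, ← k1, ← k2, sub_self]
    exact (hg.mul_right_eq_zero).1 h5
  generalize ((S.filter (fun e => c e = a + g)).card : ℤ) = x at *
  generalize ((S.filter (fun e => c e = a + g')).card : ℤ) = y at *
  have hρ0 : (0 : ℤ) ≤ ((S.filter (fun e => c e ≠ a ∧ c e ≠ a + g ∧ c e ≠ a + g')).card : ℤ) :=
    Int.natCast_nonneg _
  have hN0 : (0 : ℤ) ≤ ((S.filter (fun e => c e = a)).card : ℤ) := Int.natCast_nonneg _
  generalize ((S.filter (fun e => c e ≠ a ∧ c e ≠ a + g ∧ c e ≠ a + g')).card : ℤ) = ρ at *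
  generalize ((S.filter (fun e => c e = a)).card : ℤ) = N at *
  have n1 : N ≤ (m : ℤ) - 1 := by
    have : 0 ≤ ng t * y := mul_nonneg (ng_nonneg _) (by linarith)
    linarith
  rcases le_or_gt 2 t with ht2 | ht2
  · rcases le_or_gt 2 t' with ht2' | ht2'
    · -- case I
      rw [wt_two ht2] at f1
      rw [wt_two ht2'] at f1'
      have b1 : t - 1 ≤ (t - 1) * y := le_mul_of_one_le_right (by omega) hy1
      have b2 : t' - 1 ≤ (t' - 1) * x := le_mul_of_one_le_right (by omega) hx1
      by_cases h2 : t = 2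
      · subst h2
        have := Int.le_of_dvd (by omega) hdvd
        omega
      · by_cases h2' : t' = 2
        · subst h2'
          have := Int.le_of_dvd (by omega) hdvd
          omega
        · have b3 : 2 * y ≤ (t - 1) * y := mul_le_mul_of_nonneg_right (by omega) (by omega)
          have b4 : 2 * x ≤ (t' - 1) * x := mul_le_mul_of_nonneg_right (by omega) (by omega)
          omega
    · -- case II
      have hn : t' ≤ -1 := by omega
      rw [wt_two ht2] at f1
      rw [ng_neg hn] at f2'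
      have b1 : 1 * y ≤ (t - 1) * y := mul_le_mul_of_nonneg_right (by omega) (by omega)
      have b2 : 2 * x ≤ (1 - t') * x := mul_le_mul_of_nonneg_right (by omega) (by omega)
      omega
  · have hn : t ≤ -1 := by omega
    rcases le_or_gt 2 t' with ht2' | ht2'
    · -- case III
      rw [wt_two ht2'] at f1'
      rw [ng_neg hn] at f2
      have b1 : 1 * x ≤ (t' - 1) * x := mul_le_mul_of_nonneg_right (by omega) (by omega)
      have b2 : 2 * y ≤ (1 - t) * y := mul_le_mul_of_nonneg_right (by omega) (by omega)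
      omega
    · -- case IV
      have hn' : t' ≤ -1 := by omega
      rw [ng_neg hn] at f2
      rw [ng_neg hn'] at f2'
      rw [wt_neg hn] at f1
      have b1 : 2 * x ≤ (1 - t') * x := mul_le_mul_of_nonneg_right (by omega) (by omega)
      have b2 : 2 * y ≤ (1 - t) * y := mul_le_mul_of_nonneg_right (by omega) (by omega)
      have b3 : 0 ≤ -t * y := mul_nonneg (by omega) (by omega)
      omega

/-- many elements of a part of `M` have value `0` or `1` -/
theorem count_mid {M : Finset ι} {c : ι → ZMod m} {a g : ZMod m} {v : ZMod m → ℤ}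
    (h : Desc m M c a g v) :
    ((M.filter (fun e => v (c e) ≠ 0 ∧ v (c e) ≠ 1)).card : ℤ) ≤ 2 * (m : ℤ) - 2 - M.card := by
  refine le_trans ?_ (sum_wt h)
  have e2 : ((M.filter (fun e => v (c e) ≠ 0 ∧ v (c e) ≠ 1)).card : ℤ)
      = ∑ e ∈ M, (if v (c e) ≠ 0 ∧ v (c e) ≠ 1 then (1 : ℤ) else 0) := by
    rw [← sum_filter, sum_const, nsmul_eq_mul, mul_one]
  rw [e2]
  refine sum_le_sum fun e _ => ?_
  split_ifs with h2
  · exact wt_pos h2.1 h2.2
  · exact wt_nonneg _

theorem t_A1 : S_A1 := by
  intro m hm ι _ M M' c a g a' g' hN hN' hM hM' hS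
  obtain ⟨hg, v, hv⟩ := hN
  obtain ⟨hg', v', hv'⟩ := hN'
  have h : Desc m M c a g v := hv
  have h' : Desc m M' c a' g' v' := hv'
  have q1 := count_mid h
  have q2 := count_mid h'
  have hLL : LL m = m + m / 2 := rfl
  -- a common element
  obtain ⟨e, he, he1, he2⟩ : ∃ e ∈ M ∩ M', (v (c e) = 0 ∨ v (c e) = 1) ∧
      (v' (c e) = 0 ∨ v' (c e) = 1) := by
    by_contra hcon
    push Not at hcon
    have hsub : M ∩ M' ⊆ M.filter (fun e => v (c e) ≠ 0 ∧ v (c e) ≠ 1)
        ∪ M'.filter (fun e => v' (c e) ≠ 0 ∧ v' (c e) ≠ 1) := by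
      intro e he
      have h5 := hcon e he
      rw [mem_inter] at he
      rw [mem_union, mem_filter, mem_filter]
      by_cases h6 : v (c e) = 0 ∨ v (c e) = 1
      · right
        exact ⟨he.2, h5 h6⟩
      · left
        rw [not_or] at h6
        exact ⟨he.1, h6⟩
    have h5 := (card_le_card hsub).trans (card_union_le _ _)
    omega
  rw [mem_inter] at he
  have c1 := h.1 e he.1
  have c2 := h'.1 e he.2
  rcases he1 with he1 | he1 <;> rcases he2 with he2 | he2 <;>
    simp only [he1, he2, Int.cast_zero, Int.cast_one, mul_zero, mul_one, add_zero] at c1 c2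
  · -- `c e = a = a'`
    have ha : a' = a := by rw [← c1, ← c2]
    subst ha
    left
    exact ⟨rfl, core hm h h' hg hg' hM hM' hS⟩
  · -- `c e = a = a' + g'`
    have ha : a = a' + g' := by rw [← c1, ← c2]
    subst ha
    have h5 := core hm h (flip_desc h') hg hg'.neg hM hM' hS
    right
    rw [← h5]
    constructor
    · ring
    · ring
  · -- `c e = a + g = a'`
    have ha : a' = a + g := by rw [← c1, ← c2]
    subst ha
    have h5 := core hm (flip_desc h) h' hg.neg hg' hM hM' hS
    right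
    exact ⟨rfl, h5⟩
  · -- `c e = a + g = a' + g'`
    have ha : a' + g' = a + g := by rw [← c1, ← c2]
    have h6 := flip_desc h'
    rw [ha] at h6
    have h5 := core hm (flip_desc h) h6 hg.neg hg'.neg hM hM' hS
    left
    have h7 : g' = g := neg_injective h5
    rw [h7] at ha
    exact ⟨add_right_cancel ha, h7⟩

end Pool.Agent.H344.ZM
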